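import Pool.Agent.Run7.h166.PC.Ring
import Pool.Agent.Run7.h166.FC.Norm

/-!
# The norm of the rotated sum
-/

set_option autoImplicit false
set_option maxHeartbeats 4000000

open Finset Real

namespace Pool.Agent.Run7.h166.PC

lemma sign_abs {ε : ℤ} (h : ε = 1 ∨ ε = -1) : |(ε : ℝ)| = 1 := by
  rcases h with h | h <;> rw [h] <;> simp

lemma w_pos : (0 : ℝ) < 1 + √2 := by linarith [s2_gt]

lemma one_le_w : (1 : ℝ) ≤ 1 + √2 := by linarith [s2_gt]

lemma abs_w' : |1 - √2| = √2 - 1 := by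
  rw [abs_of_neg (by linarith [s2_gt])]; ring

/-- **The core**: a common divisor of `M` and of the sum is bounded by the norm of the rotated sum. -/
theorem core {n : ℕ} {M : ℤ} (hn : 0 < n) (hM : IsPL n M) (S : Finset ℕ) (x x' : ℕ → ℤ) (c : ℕ)
    (hnd : ¬ M ∣ ∑ i ∈ S, (x i * P i + x' i * P (i + 1))) :
    (2 * (Int.gcd M (∑ i ∈ S, (x i * P i + x' i * P (i + 1))) : ℝ)) ^ 2 ≤
      (∑ i ∈ S, (|(x i : ℝ)| + 3 * |(x' i : ℝ)|) *
        ((1 + √2) ^ ((c + i) % (2 * n)) + (1 + √2) ^ ((c + (2 * n - 1) * i) % (2 * n)))) *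
      (∑ i ∈ S, (|(x i : ℝ)| + 3 * |(x' i : ℝ)|) *
        (|1 - √2| ^ ((c + i) % (2 * n)) + |1 - √2| ^ ((c + (2 * n - 1) * i) % (2 * n)))) := by
  set N : ℤ := ∑ i ∈ S, (x i * P i + x' i * P (i + 1)) with hN
  have hex1 : ∀ i : ℕ, ∃ ε : ℤ, (ε = 1 ∨ ε = -1) ∧
      ((2 * M : ℤ) : R) ∣ om ^ c * om ^ i - (ε : R) * om ^ ((c + i) % (2 * n)) := by
    intro i
    obtain ⟨ε, h1, h2⟩ := red hM (c + i)
    rw [pow_add] at h2
    exact ⟨ε, h1, h2⟩
  choose ε hε hεd using hex1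
  choose ε' hε' hεd' using fun i => red' hn hM c i
  obtain ⟨X, hX⟩ : ∃ X : R, X = ∑ i ∈ S, (((x i : R) + x' i * om) * ((ε i : R) * om ^ ((c + i) % (2 * n))) -
      ((x i : R) + x' i * om') * ((ε' i : R) * om ^ ((c + (2 * n - 1) * i) % (2 * n)))) := ⟨_, rfl⟩
  have hcong : ((2 * M : ℤ) : R) ∣ om ^ c * (r8 * (N : R)) - X := by
    have e : om ^ c * (r8 * (N : R)) - X =
        ∑ i ∈ S, (((x i : R) + x' i * om) * (om ^ c * om ^ i - (ε i : R) * om ^ ((c + i) % (2 * n))) -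
          ((x i : R) + x' i * om') * (om ^ c * om' ^ i - (ε' i : R) * om ^ ((c + (2 * n - 1) * i) % (2 * n)))) := by
      rw [hX, hN]
      push_cast
      rw [mul_sum, mul_sum, ← sum_sub_distrib]
      refine sum_congr rfl fun i _ => ?_
      have := blockR (x i) (x' i) i
      push_cast at this
      rw [this]
      ring
    rw [e]
    exact dvd_sum fun i _ => dvd_sub (Dvd.dvd.mul_left (hεd i) _) (Dvd.dvd.mul_left (hεd' i) _)
  -- `X ≠ 0`
  have hX0 : X ≠ 0 := by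
    intro h0
    rw [h0, sub_zero] at hcong
    apply hnd
    have h1 : ((2 * M : ℤ) : R) ∣ om' ^ c * (om ^ c * (r8 * (N : R))) := Dvd.dvd.mul_left hcong _
    have h2 : om' ^ c * (om ^ c * (r8 * (N : R))) = (-1) ^ c * (r8 * (N : R)) := by
      rw [← om_mul_om', mul_pow]; ring
    rw [h2] at h1
    have h3 : ((2 * M : ℤ) : R) ∣ r8 * (N : R) := by
      have h4 := Dvd.dvd.mul_left h1 ((-1) ^ c)
      rw [← mul_assoc, ← mul_pow] at h4
      simpa using h4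
    have h5 := ((dvd_iff' _ _).1 h3).1
    have h6 : (r8 * (N : R)).re = 2 * -N := by
      rw [r8_eq]; simp
    rw [h6] at h5
    exact (Int.dvd_neg).1 (Int.dvd_of_mul_dvd_mul_left (by norm_num) h5)
  -- the gcd divides `X`
  obtain ⟨d, hd⟩ : ∃ d : ℕ, d = Int.gcd M N := ⟨_, rfl⟩
  have hdX : ((2 * d : ℤ) : R) ∣ X := by
    have h1 : ((2 * d : ℤ) : R) ∣ ((2 * M : ℤ) : R) := by
      rw [hd]; exact (Int.castRingHom R).map_dvd (mul_dvd_mul_left 2 (Int.gcd_dvd_left _ _))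
    have h2 : ((2 * d : ℤ) : R) ∣ ((2 * N : ℤ) : R) := by
      rw [hd]; exact (Int.castRingHom R).map_dvd (mul_dvd_mul_left 2 (Int.gcd_dvd_right _ _))
    have h3 : ((2 * d : ℤ) : R) ∣ om ^ c * (r8 * (N : R)) := by
      have e : om ^ c * (r8 * (N : R)) = om ^ c * (⟨-1, 1⟩ : R) * ((2 * N : ℤ) : R) := by
        have h2 : r8 = 2 * (⟨-1, 1⟩ : R) := by rw [r8_eq]; ext <;> simp
        rw [h2]
        push_cast
        ring
      rw [e]
      exact Dvd.dvd.mul_left h2 _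
    have h4 := dvd_sub h3 (h1.trans hcong)
    rwa [sub_sub_cancel] at h4
  have hnz : nrm X ≠ 0 := fun h => hX0 (eq_zero_of_nrm h)
  have hle : (2 * d : ℤ) ^ 2 ≤ |nrm X| := Int.le_of_dvd (abs_pos.2 hnz) ((dvd_abs _ _).2 (sq_dvd_nrm hdX))
  have hler : (2 * d : ℝ) ^ 2 ≤ |e1 X| * |e2 X| := by
    rw [← abs_mul, ← nrm_eq]
    exact_mod_cast hle
  have t2 : ∀ i, |(x i : ℝ) + x' i * (1 + √2)| ≤ |(x i : ℝ)| + 3 * |(x' i : ℝ)| := by
    intro i
    refine (abs_add_le _ _).trans ?_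
    rw [abs_mul, abs_of_pos w_pos]
    nlinarith [abs_nonneg (x' i : ℝ), s2_lt]
  have t3 : ∀ i, |(x i : ℝ) + x' i * (1 - √2)| ≤ |(x i : ℝ)| + 3 * |(x' i : ℝ)| := by
    intro i
    refine (abs_add_le _ _).trans ?_
    rw [abs_mul, abs_w']
    nlinarith [abs_nonneg (x' i : ℝ), s2_lt]
  -- the two absolute values
  have b1 : |e1 X| ≤ ∑ i ∈ S, (|(x i : ℝ)| + 3 * |(x' i : ℝ)|) *
        ((1 + √2) ^ ((c + i) % (2 * n)) + (1 + √2) ^ ((c + (2 * n - 1) * i) % (2 * n))) := by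
    rw [hX, map_sum]
    refine (abs_sum_le_sum_abs _ _).trans (sum_le_sum fun i _ => ?_)
    simp only [map_sub, map_mul, map_add, map_intCast, map_pow, e1_om, e1_om']
    have t1 := abs_sub (((x i : ℝ) + x' i * (1 + √2)) * ((ε i : ℝ) * (1 + √2) ^ ((c + i) % (2 * n))))
      (((x i : ℝ) + x' i * (1 - √2)) * ((ε' i : ℝ) * (1 + √2) ^ ((c + (2 * n - 1) * i) % (2 * n))))
    rw [abs_mul, abs_mul, abs_mul, abs_mul, sign_abs (hε i), sign_abs (hε' i), one_mul, one_mul,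
      abs_of_pos (pow_pos w_pos _), abs_of_pos (pow_pos w_pos _)] at t1
    refine t1.trans ?_
    rw [mul_add (|(x i : ℝ)| + 3 * |(x' i : ℝ)|)]
    exact add_le_add (mul_le_mul_of_nonneg_right (t2 i) (pow_pos w_pos _).le)
      (mul_le_mul_of_nonneg_right (t3 i) (pow_pos w_pos _).le)
  have b2 : |e2 X| ≤ ∑ i ∈ S, (|(x i : ℝ)| + 3 * |(x' i : ℝ)|) *
        (|1 - √2| ^ ((c + i) % (2 * n)) + |1 - √2| ^ ((c + (2 * n - 1) * i) % (2 * n))) := by
    rw [hX, map_sum]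
    refine (abs_sum_le_sum_abs _ _).trans (sum_le_sum fun i _ => ?_)
    simp only [map_sub, map_mul, map_add, map_intCast, map_pow, e2_om, e2_om']
    have t1 := abs_sub (((x i : ℝ) + x' i * (1 - √2)) * ((ε i : ℝ) * (1 - √2) ^ ((c + i) % (2 * n))))
      (((x i : ℝ) + x' i * (1 + √2)) * ((ε' i : ℝ) * (1 - √2) ^ ((c + (2 * n - 1) * i) % (2 * n))))
    rw [abs_mul, abs_mul, abs_mul, abs_mul, sign_abs (hε i), sign_abs (hε' i), one_mul, one_mul,
      abs_pow, abs_pow] at t1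
    refine t1.trans ?_
    rw [mul_add (|(x i : ℝ)| + 3 * |(x' i : ℝ)|)]
    exact add_le_add (mul_le_mul_of_nonneg_right (t3 i) (pow_nonneg (abs_nonneg _) _))
      (mul_le_mul_of_nonneg_right (t2 i) (pow_nonneg (abs_nonneg _) _))
  rw [← hd]
  exact hler.trans (mul_le_mul b1 b2 (abs_nonneg _) ((abs_nonneg _).trans b1))

end Pool.Agent.Run7.h166.PC
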