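import Mathlib

/-!
# Pell numbers in `ℤ[√2]`

`x + y √2 = (1 + √2) ^ n`, `M = x` or `M = y`: then `(1 + √2) ^ (2 n) ≡ ± 1` modulo `2 M`.
-/

set_option autoImplicit false
set_option maxHeartbeats 4000000

open Finset Real

namespace Pool.Agent.Run7.h166.PC

/-- The Pell numbers. -/
def P : ℕ → ℤ
  | 0 => 0
  | 1 => 1
  | k + 2 => 2 * P (k + 1) + P k

/-- `ℤ[√2]`, with the basis `1, 1 + √2` -/
abbrev R := QuadraticAlgebra ℤ 1 2

@[simp] lemma re2 : (2 : R).re = 2 := rfl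

@[simp] lemma im2 : (2 : R).im = 0 := rfl

/-- `1 + √2` -/
def om : R := ⟨0, 1⟩

/-- `1 - √2` -/
def om' : R := ⟨2, -1⟩

lemma om_sq : om ^ 2 = 2 * om + 1 := by
  rw [sq]; unfold om; ext <;> simp [QuadraticAlgebra.re_one, QuadraticAlgebra.im_one]

lemma om'_sq : om' ^ 2 = 2 * om' + 1 := by
  rw [sq]; unfold om'; ext <;> simp [QuadraticAlgebra.re_one, QuadraticAlgebra.im_one]

lemma om_add_om' : om + om' = 2 := by
  unfold om om'; ext <;> simp

lemma om_mul_om' : om * om' = -1 := by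
  unfold om om'; ext <;> simp [QuadraticAlgebra.re_one, QuadraticAlgebra.im_one]

/-- evaluation -/
def ev (t : ℝ) (ht : t * t = 2 * t + 1) : R →+* ℝ where
  toFun z := z.re + z.im * t
  map_one' := by simp [QuadraticAlgebra.re_one, QuadraticAlgebra.im_one]
  map_zero' := by simp
  map_add' x y := by simp; ring
  map_mul' x y := by
    simp only [QuadraticAlgebra.re_mul, QuadraticAlgebra.im_mul]
    push_cast
    linear_combination (-(x.im : ℝ) * y.im) * ht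

lemma s2 : √2 * √2 = 2 := Real.mul_self_sqrt (by norm_num)

lemma s2_gt : (1.414 : ℝ) < √2 := by
  rw [Real.lt_sqrt (by norm_num)]; norm_num

lemma s2_lt : √2 < 1.415 := by
  rw [Real.sqrt_lt' (by norm_num)]; norm_num

lemma w_mul : (1 + √2) * (1 + √2) = 2 * (1 + √2) + 1 := by nlinarith [s2]

lemma w'_mul : (1 - √2) * (1 - √2) = 2 * (1 - √2) + 1 := by nlinarith [s2]

/-- the first embedding -/
noncomputable def e1 : R →+* ℝ := ev (1 + √2) w_mul

/-- the second embedding -/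
noncomputable def e2 : R →+* ℝ := ev (1 - √2) w'_mul

lemma e1_apply (z : R) : e1 z = z.re + z.im * (1 + √2) := rfl

lemma e2_apply (z : R) : e2 z = z.re + z.im * (1 - √2) := rfl

lemma e1_om : e1 om = 1 + √2 := by rw [e1_apply]; simp [om]

lemma e2_om : e2 om = 1 - √2 := by rw [e2_apply]; simp [om]

lemma e1_om' : e1 om' = 1 - √2 := by
  rw [e1_apply]; simp [om']
  ring

lemma e2_om' : e2 om' = 1 + √2 := by
  rw [e2_apply]; simp [om']
  ring

/-- the norm -/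
def nrm (z : R) : ℤ := z.re ^ 2 + 2 * z.re * z.im - z.im ^ 2

lemma nrm_eq (z : R) : (nrm z : ℝ) = e1 z * e2 z := by
  rw [e1_apply, e2_apply, nrm]
  push_cast
  linear_combination ((z.im : ℝ) ^ 2) * s2

lemma rat_eq {a b : ℤ} (h : (a : ℝ) + b * √2 = 0) : a = 0 ∧ b = 0 := by
  by_cases hB : b = 0
  · rw [hB] at h
    simp at h
    exact ⟨by exact_mod_cast h, hB⟩
  · exfalso
    apply irrational_sqrt_two
    refine ⟨-(a : ℚ) / b, ?_⟩
    have hB' : (b : ℝ) ≠ 0 := by exact_mod_cast hB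
    push_cast
    rw [div_eq_iff hB']
    linarith

lemma eq_zero_of_nrm {z : R} (h : nrm z = 0) : z = 0 := by
  have h0 : e1 z * e2 z = 0 := by rw [← nrm_eq, h]; simp
  rcases mul_eq_zero.1 h0 with h1 | h1
  · rw [e1_apply] at h1
    obtain ⟨ha, hb⟩ := rat_eq (a := z.re + z.im) (b := z.im) (by push_cast; linarith)
    ext
    · rw [QuadraticAlgebra.re_zero]; omega
    · exact hb
  · rw [e2_apply] at h1
    obtain ⟨ha, hb⟩ := rat_eq (a := z.re + z.im) (b := -z.im) (by push_cast; linarith)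
    ext
    · rw [QuadraticAlgebra.re_zero]; omega
    · rw [QuadraticAlgebra.im_zero]; omega

lemma dvd_iff' (d : ℤ) (z : R) : (d : R) ∣ z ↔ d ∣ z.re ∧ d ∣ z.im := by
  have : ((d : R)) = algebraMap ℤ R d := by simp
  rw [this, QuadraticAlgebra.algebraMap_dvd_iff]

lemma sq_dvd_nrm {d : ℤ} {z : R} (h : (d : R) ∣ z) : d ^ 2 ∣ nrm z := by
  obtain ⟨⟨a, ha⟩, ⟨b, hb⟩⟩ := (dvd_iff' d z).1 h
  refine ⟨a ^ 2 + 2 * a * b - b ^ 2, ?_⟩
  rw [nrm, ha, hb]
  ring

/-- `2 √2` -/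
def r8 : R := om - om'

lemma r8_eq : r8 = ⟨-2, 2⟩ := by
  unfold r8 om om'; ext <;> simp

lemma pellR (n : ℕ) : r8 * (P n : R) = om ^ n - om' ^ n := by
  induction n using Nat.strong_induction_on with
  | _ n ih =>
    match n with
    | 0 => simp [P]
    | 1 => simp [r8, P]
    | n + 2 =>
      have h1 := ih n (by omega)
      have h2 := ih (n + 1) (by omega)
      rw [P, pow_add om n 2, pow_add om' n 2, om_sq, om'_sq]
      push_cast
      have : r8 * (2 * (P (n + 1) : R) + (P n : R)) = 2 * (r8 * (P (n + 1) : R)) + r8 * (P n : R) := by ring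
      rw [this, h1, h2]
      ring

lemma luc2R (k : ℕ) : ((-2 * P k + 2 * P (k + 1) : ℤ) : R) = om ^ k + om' ^ k := by
  induction k using Nat.strong_induction_on with
  | _ k ih =>
    match k with
    | 0 => simp [P]; norm_num
    | 1 =>
      have h := om_add_om'
      simp only [pow_one]
      rw [h]
      simp [P]
    | k + 2 =>
      have h1 := ih k (by omega)
      have h2 := ih (k + 1) (by omega)
      rw [P, show P (k + 2 + 1) = 2 * P (k + 1 + 1) + P (k + 1) from rfl,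
        pow_add om k 2, pow_add om' k 2, om_sq, om'_sq]
      have e : om ^ k * (2 * om + 1) + om' ^ k * (2 * om' + 1) =
        2 * (om ^ (k + 1) + om' ^ (k + 1)) + (om ^ k + om' ^ k) := by ring
      rw [e, ← h1, ← h2]
      push_cast
      ring

lemma blockR (x x' : ℤ) (i : ℕ) :
    r8 * ((x * P i + x' * P (i + 1) : ℤ) : R) =
      ((x : R) + x' * om) * om ^ i - ((x : R) + x' * om') * om' ^ i := by
  have h1 := pellR i
  have h2 := pellR (i + 1)
  push_cast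
  have : r8 * ((x : R) * (P i : R) + (x' : R) * (P (i + 1) : R)) =
    (x : R) * (r8 * (P i : R)) + (x' : R) * (r8 * (P (i + 1) : R)) := by ring
  rw [this, h1, h2]
  ring

/-- `M = y` or `M = x`, in terms of Pell numbers -/
def IsPL (n : ℕ) (M : ℤ) : Prop := M = P n ∨ M = -P n + P (n + 1)

lemma r8_cancel {z : ℤ} (h : r8 * (z : R) = 0) : z = 0 := by
  have := congrArg QuadraticAlgebra.re h
  rw [r8_eq] at this
  simp at this
  exact this

lemma xy_eq {n : ℕ} {x y : ℤ} (h : (x : ℝ) + y * √2 = (1 + √2) ^ n) : y = P n ∧ x = -P n + P (n + 1) := by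
  have e : e1 (om ^ n) = (1 + √2) ^ n := by rw [map_pow, e1_om]
  have hp := pellR n
  have hl := luc2R n
  -- `om ^ n = (P (n+1) - 2 P n) + P n om`
  have h2 : (2 : R) * om ^ n = 2 * (⟨P (n + 1) - 2 * P n, P n⟩ : R) := by
    have h3 : (2 : R) * om ^ n = (om ^ n + om' ^ n) + (om ^ n - om' ^ n) := by ring
    rw [h3, ← hp, ← hl, r8_eq]
    ext
    · simp; ring
    · simp
  have h4 : om ^ n = (⟨P (n + 1) - 2 * P n, P n⟩ : R) := by
    have h6 := congrArg QuadraticAlgebra.re h2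
    have h5 := congrArg QuadraticAlgebra.im h2
    simp at h6 h5
    ext
    · exact h6
    · exact h5
  rw [← e, h4, e1_apply] at h
  push_cast at h
  obtain ⟨ha, hb⟩ := rat_eq (a := x - (P (n + 1) - 2 * P n) - P n) (b := y - P n) (by push_cast; linarith)
  constructor <;> omega

lemma isPL_of {n : ℕ} {x y M : ℤ} (h : (x : ℝ) + y * √2 = (1 + √2) ^ n) (hM : M = x ∨ M = y) : IsPL n M := by
  obtain ⟨h1, h2⟩ := xy_eq h
  rcases hM with h | h
  · right; rw [h, h2]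
  · left; rw [h, h1]

lemma exists_delta {n : ℕ} {M : ℤ} (hM : IsPL n M) :
    ∃ δ : ℤ, (δ = 1 ∨ δ = -1) ∧ ((2 * M : ℤ) : R) ∣ om ^ (2 * n) - (δ : R) := by
  have h0 : om ^ n * om' ^ n = (-1) ^ n := by rw [← mul_pow, om_mul_om']
  rcases hM with h | h
  · refine ⟨(-1) ^ n, neg_one_pow_eq_or ℤ n, ⟨(⟨-1, 1⟩ : R) * om ^ n, ?_⟩⟩
    have h1 := pellR n
    have h2 : r8 = 2 * (⟨-1, 1⟩ : R) := by rw [r8_eq]; ext <;> simp
    rw [h, two_mul n, pow_add]
    calc om ^ n * om ^ n - (((-1) ^ n : ℤ) : R) = om ^ n * (om ^ n - om' ^ n) := by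
          rw [mul_sub, h0]; push_cast; ring
      _ = om ^ n * (2 * (⟨-1, 1⟩ : R) * ((P n : ℤ) : R)) := by rw [← h1, h2]
      _ = _ := by push_cast; ring
  · refine ⟨-(-1) ^ n, ?_, ⟨om ^ n, ?_⟩⟩
    · rcases neg_one_pow_eq_or ℤ n with h1 | h1 <;> rw [h1] <;> simp
    · have h1 := luc2R n
      have h2 : 2 * M = -2 * P n + 2 * P (n + 1) := by rw [h]; ring
      rw [h2, two_mul n, pow_add, h1]
      calc om ^ n * om ^ n - ((-(-1) ^ n : ℤ) : R) = om ^ n * om ^ n + om ^ n * om' ^ n := by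
            rw [h0]; push_cast; ring
        _ = _ := by ring

lemma sign_pow {δ : ℤ} (h : δ = 1 ∨ δ = -1) (k : ℕ) : δ ^ k = 1 ∨ δ ^ k = -1 := by
  rcases h with h | h
  · left; rw [h, one_pow]
  · rw [h]; exact neg_one_pow_eq_or ℤ k

lemma sign_mul {a b : ℤ} (ha : a = 1 ∨ a = -1) (hb : b = 1 ∨ b = -1) : a * b = 1 ∨ a * b = -1 := by
  rcases ha with h | h <;> rcases hb with h' | h' <;> rw [h, h'] <;> simp

lemma red {n : ℕ} {M : ℤ} (hM : IsPL n M) (u : ℕ) :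
    ∃ ε : ℤ, (ε = 1 ∨ ε = -1) ∧ ((2 * M : ℤ) : R) ∣ om ^ u - (ε : R) * om ^ (u % (2 * n)) := by
  obtain ⟨δ, hδ, h⟩ := exists_delta hM
  refine ⟨δ ^ (u / (2 * n)), sign_pow hδ _, ?_⟩
  have e : om ^ u = (om ^ (2 * n)) ^ (u / (2 * n)) * om ^ (u % (2 * n)) := by
    rw [← pow_mul, ← pow_add, Nat.div_add_mod]
  rw [e]
  push_cast
  rw [← sub_mul]
  push_cast at h
  exact Dvd.dvd.mul_right (h.trans (sub_dvd_pow_sub_pow _ _ _)) _

lemma red' {n : ℕ} (hn : 0 < n) {M : ℤ} (hM : IsPL n M) (c i : ℕ) :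
    ∃ ε : ℤ, (ε = 1 ∨ ε = -1) ∧
      ((2 * M : ℤ) : R) ∣ om ^ c * om' ^ i - (ε : R) * om ^ ((c + (2 * n - 1) * i) % (2 * n)) := by
  obtain ⟨δ, hδ, h⟩ := exists_delta hM
  obtain ⟨ε, hε, h1⟩ := red hM (c + (2 * n - 1) * i)
  refine ⟨δ ^ i * (-1) ^ i * ε, sign_mul (sign_mul (sign_pow hδ _) (sign_pow (Or.inr rfl) _)) hε, ?_⟩
  have h2 : ((2 * M : ℤ) : R) ∣ (om ^ (2 * n)) ^ i - (δ : R) ^ i := h.trans (sub_dvd_pow_sub_pow _ _ _)
  have h3 : (om ^ (2 * n)) ^ i * (om ^ c * om' ^ i) = (-1) ^ i * om ^ (c + (2 * n - 1) * i) := by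
    obtain ⟨t, ht⟩ : ∃ t, 2 * n = t + 1 := ⟨2 * n - 1, by omega⟩
    rw [ht, Nat.add_sub_cancel, ← om_mul_om']
    ring
  have hδ2 : (δ : R) ^ i * (δ : R) ^ i = 1 := by
    have : δ ^ i * δ ^ i = 1 := by
      rcases sign_pow hδ i with h | h <;> rw [h] <;> norm_num
    exact_mod_cast this
  have h4 : om ^ c * om' ^ i - ((δ ^ i * (-1) ^ i * ε : ℤ) : R) * om ^ ((c + (2 * n - 1) * i) % (2 * n)) =
      (δ : R) ^ i * (-1) ^ i * (om ^ (c + (2 * n - 1) * i) - (ε : R) * om ^ ((c + (2 * n - 1) * i) % (2 * n))) -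
      (δ : R) ^ i * (((om ^ (2 * n)) ^ i - (δ : R) ^ i) * (om ^ c * om' ^ i)) := by
    push_cast
    rw [sub_mul ((om ^ (2 * n)) ^ i), h3]
    calc _ = (δ : R) ^ i * (δ : R) ^ i * (om ^ c * om' ^ i) -
          (δ : R) ^ i * (-1) ^ i * (ε : R) * om ^ ((c + (2 * n - 1) * i) % (2 * n)) := by rw [hδ2, one_mul]
      _ = _ := by ring
  rw [h4]
  exact dvd_sub (Dvd.dvd.mul_left h1 _) (Dvd.dvd.mul_left (Dvd.dvd.mul_right h2 _) _)

end Pool.Agent.Run7.h166.PC
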