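import Pool.Agent.Run7.h166.PC.Norm

/-!
# The bound for `s` blocks, and its sharpness
-/

set_option autoImplicit false
set_option maxHeartbeats 4000000

open Finset Real

namespace Pool.Agent.Run7.h166.PC

lemma abs_w'_le : |1 - √2| ≤ 1 := by
  rw [abs_w']; linarith [s2_lt]

/-- **The bound for `s` blocks.** -/
theorem partA {n : ℕ} {M : ℤ} (hn : 0 < n) (hM : IsPL n M) (S : Finset ℕ) (x x' : ℕ → ℤ)
    (hnd : ¬ M ∣ ∑ i ∈ S, (x i * P i + x' i * P (i + 1))) :
    (Int.gcd M (∑ i ∈ S, (x i * P i + x' i * P (i + 1))) : ℝ) ≤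
      (∑ i ∈ S, (|(x i : ℝ)| + 3 * |(x' i : ℝ)|)) * (1 + √2) ^ ((n : ℝ) - n / (2 * S.card)) := by
  have hs : 0 < S.card := by
    rw [card_pos]
    by_contra h
    rw [not_nonempty_iff_eq_empty] at h
    apply hnd
    rw [h]; simp
  obtain ⟨l, hl⟩ : ∃ l, l = (n - 1) / S.card := ⟨_, rfl⟩
  have hl1 : S.card * l < n := by
    have := Nat.mul_div_le (n - 1) S.card
    rw [← hl] at this
    omega
  have hl2 : l ≤ n - 1 := by rw [hl]; exact Nat.div_le_self _ _
  obtain ⟨c, hc, hc2⟩ := FC.exists_rotation (l := l) (by omega) S hl1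
  have h1 := core hn hM S x x' c hnd
  set B : ℝ := ∑ i ∈ S, (|(x i : ℝ)| + 3 * |(x' i : ℝ)|) with hB
  have hB0 : 0 ≤ B := sum_nonneg fun i _ => by positivity
  have b1 : (∑ i ∈ S, (|(x i : ℝ)| + 3 * |(x' i : ℝ)|) *
        ((1 + √2) ^ ((c + i) % (2 * n)) + (1 + √2) ^ ((c + (2 * n - 1) * i) % (2 * n)))) ≤
      B * (2 * (1 + √2) ^ (2 * n - l - 1)) := by
    rw [hB, sum_mul]
    refine sum_le_sum fun i hi => mul_le_mul_of_nonneg_left ?_ (by positivity)
    have t1 : (1 + √2) ^ ((c + i) % (2 * n)) ≤ (1 + √2) ^ (2 * n - l - 1) :=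
      pow_le_pow_right₀ one_le_w (by have := (hc2 i hi).1; omega)
    have t2 : (1 + √2) ^ ((c + (2 * n - 1) * i) % (2 * n)) ≤ (1 + √2) ^ (2 * n - l - 1) :=
      pow_le_pow_right₀ one_le_w (by have := (hc2 i hi).2; omega)
    linarith
  have b2 : (∑ i ∈ S, (|(x i : ℝ)| + 3 * |(x' i : ℝ)|) *
        (|1 - √2| ^ ((c + i) % (2 * n)) + |1 - √2| ^ ((c + (2 * n - 1) * i) % (2 * n)))) ≤ B * 2 := by
    rw [hB, sum_mul]
    refine sum_le_sum fun i hi => mul_le_mul_of_nonneg_left ?_ (by positivity)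
    have t1 := pow_le_one₀ (n := (c + i) % (2 * n)) (abs_nonneg (1 - √2)) abs_w'_le
    have t2 := pow_le_one₀ (n := (c + (2 * n - 1) * i) % (2 * n)) (abs_nonneg (1 - √2)) abs_w'_le
    linarith
  have h2 : (2 * (Int.gcd M (∑ i ∈ S, (x i * P i + x' i * P (i + 1))) : ℝ)) ^ 2 ≤
      (2 * B) ^ 2 * (1 + √2) ^ (2 * n - l - 1) := by
    refine h1.trans ((mul_le_mul b1 b2 (sum_nonneg fun i _ => by positivity)
      (mul_nonneg hB0 (mul_nonneg zero_le_two (pow_pos w_pos _).le))).trans (le_of_eq ?_))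
    ring
  have h3 : (1 + √2) ^ (2 * n - l - 1) ≤ ((1 + √2) ^ ((n : ℝ) - n / (2 * S.card))) ^ 2 := by
    rw [← rpow_natCast, ← rpow_natCast, ← rpow_mul w_pos.le]
    apply rpow_le_rpow_of_exponent_le one_le_w
    have hs' : (0 : ℝ) < S.card := by exact_mod_cast hs
    have e1 : ((2 * n - l - 1 : ℕ) : ℝ) = 2 * n - l - 1 := by
      have : 2 * n - l - 1 + (l + 1) = 2 * n := by omega
      have : ((2 * n - l - 1 : ℕ) : ℝ) + (l + 1) = 2 * n := by exact_mod_cast this
      linarith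
    have e2 : (n : ℝ) ≤ (l + 1) * S.card := by
      have : n ≤ (l + 1) * S.card := by
        have := Nat.lt_mul_div_succ (n - 1) hs
        rw [← hl] at this
        have e : (l + 1) * S.card = S.card * (l + 1) := by ring
        rw [e]
        omega
      exact_mod_cast this
    have e3 : (n : ℝ) / S.card ≤ l + 1 := by
      rw [div_le_iff₀ hs']; exact e2
    rw [e1]
    have e4 : ((n : ℝ) - n / (2 * S.card)) * ((2 : ℕ) : ℝ) = 2 * n - n / S.card := by
      push_cast
      field_simp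
    rw [e4]
    linarith
  have h4 : (2 * (Int.gcd M (∑ i ∈ S, (x i * P i + x' i * P (i + 1))) : ℝ)) ^ 2 ≤
      (2 * B * (1 + √2) ^ ((n : ℝ) - n / (2 * S.card))) ^ 2 := by
    refine h2.trans ?_
    rw [mul_pow (2 * B) ((1 + √2) ^ ((n : ℝ) - n / (2 * S.card))) 2]
    exact mul_le_mul_of_nonneg_left h3 (sq_nonneg _)
  have h5 := le_of_sq_le_sq h4 (mul_nonneg (mul_nonneg zero_le_two hB0) (rpow_nonneg w_pos.le _))
  linarith

lemma pell_step (a m : ℕ) : P (a + 2 * m) =
    P m * (-2 * P (a + m) + 2 * P (a + m + 1)) + (-1) ^ m * P a := by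
  rw [← sub_eq_zero]
  apply r8_cancel
  have h1 := pellR (a + 2 * m)
  have h2 := pellR m
  have h3 := luc2R (a + m)
  have h4 := pellR a
  push_cast at h3 ⊢
  have e : r8 * ((P (a + 2 * m) : R) - ((P m : R) *
      (-2 * (P (a + m) : R) + 2 * (P (a + m + 1) : R)) + (-1) ^ m * (P a : R))) =
      r8 * (P (a + 2 * m) : R) - ((r8 * (P m : R)) *
      (-2 * (P (a + m) : R) + 2 * (P (a + m + 1) : R)) + (-1) ^ m * (r8 * (P a : R))) := by ring
  rw [e, h1, h2, h3, h4, ← om_mul_om']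
  ring

lemma quotient (m a z : ℕ) (ha : P a = P m * z) (s : ℕ) : ∃ (τ : ℤ) (σ : ℕ → ℤ), (τ = 1 ∨ τ = -1) ∧
    (∀ j, σ j = 1 ∨ σ j = -1) ∧
    P (2 * s * m + a) = P m *
      (τ * z + ∑ j ∈ range s, σ j * (-2 * P ((2 * j + 1) * m + a) + 2 * P ((2 * j + 1) * m + a + 1))) := by
  induction s with
  | zero => exact ⟨1, fun _ => 1, Or.inl rfl, fun _ => Or.inl rfl, by simp [ha]⟩
  | succ s ih =>
    obtain ⟨τ, σ, hτ, hσ, h⟩ := ih
    refine ⟨(-1) ^ m * τ, fun j => if j = s then 1 else (-1) ^ m * σ j,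
      sign_mul (sign_pow (Or.inr rfl) _) hτ, fun j => ?_, ?_⟩
    · by_cases hj : j = s
      · simp [hj]
      · simp only [hj, if_false]
        exact sign_mul (sign_pow (Or.inr rfl) _) (hσ j)
    · rw [sum_range_succ]
      beta_reduce
      rw [if_pos rfl, one_mul]
      have e0 : 2 * (s + 1) * m + a = 2 * s * m + a + 2 * m := by ring
      have e1 : (2 * s + 1) * m + a = 2 * s * m + a + m := by ring
      rw [e0, e1, pell_step, h]
      have e2 : ∑ j ∈ range s, (if j = s then 1 else (-1) ^ m * σ j) *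
          (-2 * P ((2 * j + 1) * m + a) + 2 * P ((2 * j + 1) * m + a + 1)) =
          (-1) ^ m * ∑ j ∈ range s, σ j * (-2 * P ((2 * j + 1) * m + a) + 2 * P ((2 * j + 1) * m + a + 1)) := by
        rw [mul_sum]
        refine sum_congr rfl fun j hj => ?_
        rw [if_neg (by have := mem_range.1 hj; omega)]
        ring
      rw [e2]
      ring

lemma pell_lower (n : ℕ) : (1 + √2) ^ (n + 1) ≤ 3 * (P (n + 1) : ℝ) := by
  induction n using Nat.strong_induction_on with
  | _ n ih =>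
    match n with
    | 0 => simp [P]; linarith [s2_lt]
    | 1 =>
      have h := w_mul
      have e : P (1 + 1) = 2 := rfl
      rw [e, sq, h]
      push_cast
      linarith [s2_lt]
    | n + 2 =>
      have h1 := ih n (by omega)
      have h2 := ih (n + 1) (by omega)
      rw [show P (n + 2 + 1) = 2 * P (n + 1 + 1) + P (n + 1) from rfl]
      push_cast
      have h3 : (1 + √2) ^ (n + 2 + 1) = 2 * (1 + √2) ^ (n + 1 + 1) + (1 + √2) ^ (n + 1) := by
        have : (1 + √2) ^ (n + 2 + 1) = (1 + √2) ^ (n + 1) * ((1 + √2) * (1 + √2)) := by ring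
        rw [this, w_mul]
        ring
      rw [h3]
      linarith

lemma pell_upper (n : ℕ) : (P (n + 1) : ℝ) ≤ (1 + √2) ^ n := by
  induction n using Nat.strong_induction_on with
  | _ n ih =>
    match n with
    | 0 => simp [P]
    | 1 =>
      have e : P (1 + 1) = 2 := rfl
      rw [e]
      push_cast
      rw [pow_one]
      linarith [s2_gt]
    | n + 2 =>
      have h1 := ih n (by omega)
      have h2 := ih (n + 1) (by omega)
      rw [show P (n + 2 + 1) = 2 * P (n + 1 + 1) + P (n + 1) from rfl]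
      push_cast
      have h3 : (1 + √2) ^ (n + 2) = 2 * (1 + √2) ^ (n + 1) + (1 + √2) ^ n := by
        have : (1 + √2) ^ (n + 2) = (1 + √2) ^ n * ((1 + √2) * (1 + √2)) := by ring
        rw [this, w_mul]
        ring
      rw [h3]
      linarith

lemma pell_pos (n : ℕ) : 0 < P (n + 1) := by
  have h := pell_lower n
  have h2 : (0 : ℝ) < (1 + √2) ^ (n + 1) := pow_pos w_pos _
  have : (0 : ℝ) < P (n + 1) := by linarith
  exact_mod_cast this

lemma pell_nonneg (n : ℕ) : 0 ≤ P n := by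
  rcases n with _ | n
  · simp [P]
  · exact (pell_pos n).le

lemma pell_mono {m n : ℕ} (h : m ≤ n) : P m ≤ P n := by
  refine monotone_nat_of_le_succ (f := P) (fun k => ?_) h
  rcases k with _ | k
  · simp [P]
  · rw [show P (k + 1 + 1) = 2 * P (k + 1) + P k from rfl]
    have := pell_nonneg k
    have := pell_nonneg (k + 1)
    linarith

/-- a quotient of Pell numbers is a large common divisor -/
lemma quotient_gcd {n m : ℕ} (hm : 2 ≤ m) (hmn : m ≤ n) (N : ℤ) (h : P n = P m * N) :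
    ¬ P n ∣ N ∧ (1 + √2) ^ (n - m) ≤ 2 * (Int.gcd (P n) N : ℝ) := by
  have hPm : 2 ≤ P m := by
    have := pell_mono hm
    exact this
  have hPn : 0 < P n := by
    obtain ⟨t, ht⟩ : ∃ t, n = t + 1 := ⟨n - 1, by omega⟩
    rw [ht]; exact pell_pos t
  have hNpos : 0 < N := by
    by_contra hc
    push Not at hc
    nlinarith
  refine ⟨fun hd => ?_, ?_⟩
  · have := Int.le_of_dvd hNpos hd
    nlinarith
  · have hNd : N ∣ P n := ⟨P m, by rw [h]; ring⟩
    have hg : ((Int.gcd (P n) N : ℤ)) = N := Int.gcd_eq_right hNpos.le hNd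
    have hg2 : ((Int.gcd (P n) N : ℕ) : ℝ) = (N : ℝ) := by
      exact_mod_cast congrArg (fun z : ℤ => (z : ℝ)) hg
    rw [hg2]
    have hr : (P n : ℝ) = P m * N := by exact_mod_cast h
    obtain ⟨u, hu⟩ : ∃ u, n = u + 1 := ⟨n - 1, by omega⟩
    obtain ⟨v, hv⟩ : ∃ v, m = v + 1 := ⟨m - 1, by omega⟩
    have t1 := pell_lower u
    have t2 := pell_upper v
    rw [← hu, hr] at t1
    rw [← hv] at t2
    have hNr : (0 : ℝ) < N := by exact_mod_cast hNpos
    have e1 : n = v + (n - m) + 1 := by omega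
    have t3 : (1 + √2) ^ v * ((1 + √2) ^ (n - m) * (1 + √2)) ≤ (1 + √2) ^ v * (3 * N) := by
      calc (1 + √2) ^ v * ((1 + √2) ^ (n - m) * (1 + √2)) = (1 + √2) ^ (v + (n - m) + 1) := by
            rw [pow_add, pow_add, pow_one]; ring
        _ = (1 + √2) ^ n := by rw [← e1]
        _ ≤ 3 * (P m * N) := t1
        _ ≤ 3 * ((1 + √2) ^ v * N) := by
            have := mul_le_mul_of_nonneg_right t2 hNr.le
            linarith
        _ = _ := by ring
    have t4 := le_of_mul_le_mul_left t3 (pow_pos w_pos _)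
    have t5 : (0 : ℝ) < (1 + √2) ^ (n - m) := pow_pos w_pos _
    nlinarith [s2_gt]

/-- **The exponent is best possible for even `n`.** -/
theorem partA' (s m : ℕ) (hs : 0 < s) (hm : 2 ≤ m) :
    ∃ (S : Finset ℕ) (x x' : ℕ → ℤ), S.card = s ∧ (∀ i ∈ S, |x i| ≤ 2 ∧ |x' i| ≤ 2 ∧ i < 2 * s * m) ∧
      ¬ P (2 * s * m) ∣ ∑ i ∈ S, (x i * P i + x' i * P (i + 1)) ∧
      (1 + √2) ^ (2 * s * m - m) ≤
        2 * (Int.gcd (P (2 * s * m)) (∑ i ∈ S, (x i * P i + x' i * P (i + 1))) : ℝ) := by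
  obtain ⟨τ, σ, -, hσ, h⟩ := quotient m 0 0 (by simp [P]) s
  simp only [add_zero, Nat.cast_zero, mul_zero, zero_add] at h
  have hinj : Function.Injective (fun j : ℕ => (2 * j + 1) * m) := by
    intro a b hab
    have := Nat.eq_of_mul_eq_mul_right (by omega : 0 < m) hab
    omega
  have hidx : ∀ j : ℕ, ((2 * j + 1) * m) / m / 2 = j := by
    intro j
    rw [Nat.mul_div_cancel _ (by omega : 0 < m)]
    omega
  have hsum : ∑ i ∈ (range s).image (fun j : ℕ => (2 * j + 1) * m),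
      ((-2 * σ (i / m / 2)) * P i + (2 * σ (i / m / 2)) * P (i + 1)) =
      ∑ j ∈ range s, σ j * (-2 * P ((2 * j + 1) * m) + 2 * P ((2 * j + 1) * m + 1)) := by
    rw [sum_image (fun a _ b _ hab => hinj hab)]
    refine sum_congr rfl fun j _ => ?_
    rw [hidx]
    ring
  have hle : m ≤ 2 * s * m := Nat.le_mul_of_pos_left m (by omega)
  refine ⟨(range s).image (fun j : ℕ => (2 * j + 1) * m), fun i => -2 * σ (i / m / 2), fun i => 2 * σ (i / m / 2),
    ?_, ?_, ?_⟩
  · rw [card_image_of_injective _ hinj, card_range]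
  · intro i hi
    beta_reduce
    refine ⟨?_, ?_, ?_⟩
    · rcases hσ (i / m / 2) with h1 | h1 <;> rw [h1] <;> norm_num
    · rcases hσ (i / m / 2) with h1 | h1 <;> rw [h1] <;> norm_num
    · obtain ⟨j, hj, rfl⟩ := mem_image.1 hi
      have := mem_range.1 hj
      apply Nat.mul_lt_mul_of_pos_right _ (by omega)
      omega
  · rw [hsum]
    exact quotient_gcd hm hle _ h

/-- **Odd `n`.** -/
theorem partA'' (s m : ℕ) (hm : 2 ≤ m) :
    ∃ (S : Finset ℕ) (x x' : ℕ → ℤ), S.card = s + 1 ∧ (∀ i ∈ S, |x i| ≤ 2 ∧ |x' i| ≤ 2 ∧ i < (2 * s + 1) * m) ∧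
      ¬ P ((2 * s + 1) * m) ∣ ∑ i ∈ S, (x i * P i + x' i * P (i + 1)) ∧
      (1 + √2) ^ ((2 * s + 1) * m - m) ≤
        2 * (Int.gcd (P ((2 * s + 1) * m)) (∑ i ∈ S, (x i * P i + x' i * P (i + 1))) : ℝ) := by
  obtain ⟨τ, σ, hτ, hσ, h⟩ := quotient m m 1 (by simp) s
  have hinj : Function.Injective (fun j : ℕ => (2 * j + 1) * m + m) := by
    intro a b hab
    have := Nat.eq_of_mul_eq_mul_right (by omega : 0 < m) (Nat.add_right_cancel hab)
    omega
  have hidx : ∀ j : ℕ, ((2 * j + 1) * m + m) / m / 2 - 1 = j := by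
    intro j
    have : (2 * j + 1) * m + m = (2 * j + 2) * m := by ring
    rw [this, Nat.mul_div_cancel _ (by omega : 0 < m)]
    omega
  have hne : ∀ j : ℕ, (2 * j + 1) * m + m ≠ 0 := fun j => by omega
  obtain ⟨x, hx⟩ : ∃ x : ℕ → ℤ, x = fun i => if i = 0 then 0 else -2 * σ (i / m / 2 - 1) := ⟨_, rfl⟩
  obtain ⟨x', hx'⟩ : ∃ x' : ℕ → ℤ, x' = fun i => if i = 0 then τ else 2 * σ (i / m / 2 - 1) := ⟨_, rfl⟩
  have h0 : (0 : ℕ) ∉ (range s).image (fun j : ℕ => (2 * j + 1) * m + m) := by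
    intro h0
    obtain ⟨j, -, hj⟩ := mem_image.1 h0
    exact hne j hj
  have hsum : ∑ i ∈ insert 0 ((range s).image (fun j : ℕ => (2 * j + 1) * m + m)),
      (x i * P i + x' i * P (i + 1)) =
      τ * ((1 : ℕ) : ℤ) + ∑ j ∈ range s, σ j * (-2 * P ((2 * j + 1) * m + m) + 2 * P ((2 * j + 1) * m + m + 1)) := by
    rw [sum_insert h0, sum_image (fun a _ b _ hab => hinj hab)]
    congr 1
    · rw [hx, hx']; simp [P]
    · refine sum_congr rfl fun j _ => ?_
      rw [hx, hx']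
      beta_reduce
      rw [if_neg (hne j), if_neg (hne j), hidx]
      ring
  have e1 : (2 * s + 1) * m = 2 * s * m + m := by ring
  have hle : m ≤ 2 * s * m + m := Nat.le_add_left _ _
  refine ⟨insert 0 ((range s).image (fun j : ℕ => (2 * j + 1) * m + m)), x, x', ?_, ?_, ?_⟩
  · rw [card_insert_of_notMem h0, card_image_of_injective _ hinj, card_range]
  · intro i hi
    have hi' : i < (2 * s + 1) * m := by
      rcases mem_insert.1 hi with h1 | h1
      · rw [h1]; exact Nat.mul_pos (by omega) (by omega)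
      · obtain ⟨j, hj, rfl⟩ := mem_image.1 h1
        have := mem_range.1 hj
        have e : (2 * j + 1) * m + m = (2 * j + 2) * m := by ring
        rw [e]
        apply Nat.mul_lt_mul_of_pos_right _ (by omega)
        omega
    refine ⟨?_, ?_, hi'⟩
    · rw [hx]
      beta_reduce
      split_ifs
      · simp
      · rcases hσ (i / m / 2 - 1) with h1 | h1 <;> rw [h1] <;> norm_num
    · rw [hx']
      beta_reduce
      split_ifs
      · rcases hτ with h1 | h1 <;> rw [h1] <;> norm_num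
      · rcases hσ (i / m / 2 - 1) with h1 | h1 <;> rw [h1] <;> norm_num
  · rw [hsum, e1]
    exact quotient_gcd hm hle _ h

end Pool.Agent.Run7.h166.PC
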