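import Pool.Agent.Run7.h166.PC.Sharp
import Pool.Agent.Run7.h166.FC.Window

/-!
# Windows, and the number of terms
-/

set_option autoImplicit false
set_option maxHeartbeats 4000000

open Finset Real

namespace Pool.Agent.Run7.h166.PC

lemma geom_w (L : ℕ) : ∑ m ∈ range L, (1 + √2) ^ m ≤ (1 + √2) ^ L := by
  induction L with
  | zero => simp
  | succ L ih =>
    rw [sum_range_succ, pow_succ]
    nlinarith [s2_gt, pow_pos w_pos L]

lemma geom_w' (L : ℕ) : ∑ m ∈ range L, |1 - √2| ^ m ≤ 2 := by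
  have h0 : ∑ m ∈ range L, |1 - √2| ^ m + |1 - √2| ^ L * 2 ≤ 2 := by
    rw [abs_w']
    induction L with
    | zero => simp
    | succ L ih =>
      rw [sum_range_succ, pow_succ]
      have h1 : 0 ≤ (√2 - 1) ^ L := pow_nonneg (by linarith [s2_gt]) _
      nlinarith [s2_lt, s2_gt]
  have : 0 ≤ |1 - √2| ^ L := pow_nonneg (abs_nonneg _) _
  linarith

lemma isPL_lower {n : ℕ} (hn : 0 < n) {M : ℤ} (hM : IsPL n M) : (1 + √2) ^ n ≤ 3 * (M : ℝ) := by
  obtain ⟨t, rfl⟩ : ∃ t, n = t + 1 := ⟨n - 1, by omega⟩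
  have h1 := pell_lower t
  have h2 : P (t + 1) ≤ M := by
    rcases hM with h | h
    · exact h.ge
    · rw [h, show P (t + 1 + 1) = 2 * P (t + 1) + P t from rfl]
      have := pell_nonneg t
      linarith
  have h3 : (P (t + 1) : ℝ) ≤ M := by exact_mod_cast h2
  linarith

/-- **Windows without terms.** -/
theorem partB {n : ℕ} {M : ℤ} (hn : 0 < n) (hM : IsPL n M) (S : Finset ℕ) (hS : ∀ i ∈ S, i ≤ n) (x : ℕ → ℤ)
    (B : ℝ) (hx : ∀ i ∈ S, |(x i : ℝ)| ≤ B) (k l : ℕ) (hkl : k + l ≤ n + 1)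
    (hgap : ∀ i ∈ S, i < k ∨ k + l ≤ i) (hnd : ¬ M ∣ ∑ i ∈ S, x i * P i) :
    (1 + √2) ^ l * (Int.gcd M (∑ i ∈ S, x i * P i) : ℝ) ^ 2 ≤ 18 * B ^ 2 * (M : ℝ) ^ 2 := by
  have hsum : ∑ i ∈ S, x i * P i = ∑ i ∈ S, (x i * P i + (fun _ => (0 : ℤ)) i * P (i + 1)) := by
    refine sum_congr rfl fun i _ => ?_
    simp
  obtain ⟨c, hc⟩ : ∃ c, c = 2 * n - (k + l) := ⟨_, rfl⟩
  have h1 := core hn hM S x (fun _ => 0) c (by rw [← hsum]; exact hnd)
  rw [← hsum] at h1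
  have hSne : S.Nonempty := by
    by_contra h
    rw [not_nonempty_iff_eq_empty] at h
    apply hnd
    rw [h]; simp
  have hB0 : 0 ≤ B := by
    obtain ⟨i, hi⟩ := hSne
    exact (abs_nonneg _).trans (hx i hi)
  have e0 : ∀ i, |(x i : ℝ)| + 3 * |(((fun _ => 0 : ℕ → ℤ) i : ℤ) : ℝ)| = |(x i : ℝ)| := by
    intro i; simp
  simp only [e0] at h1
  -- the points
  have hrot : ∀ i ∈ S, (c + (2 * n - 1) * i) % (2 * n) < 2 * n - l ∧ (c + i) % (2 * n) < 2 * n - l := by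
    intro i hi
    rcases Nat.eq_zero_or_pos l with h0 | h0
    · rw [h0, Nat.sub_zero]
      exact ⟨Nat.mod_lt _ (by omega), Nat.mod_lt _ (by omega)⟩
    · have hi1 := hS i hi
      have hi2 := hgap i hi
      have hic : i ≤ c := by omega
      have e1 : c + (2 * n - 1) * i = (c - i) + 2 * n * i := by
        obtain ⟨t, ht⟩ : ∃ t, 2 * n = t + 1 := ⟨2 * n - 1, by omega⟩
        rw [ht, Nat.add_sub_cancel]
        have : (t + 1) * i = t * i + i := by ring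
        rw [this]
        omega
      have e2 : (c + (2 * n - 1) * i) % (2 * n) = c - i := by
        rw [e1, Nat.add_mul_mod_self_left, Nat.mod_eq_of_lt (by omega)]
      constructor
      · rw [e2]; omega
      · rcases hi2 with h2 | h2
        · rw [Nat.mod_eq_of_lt (by omega)]; omega
        · have : c + i = (i - (k + l)) + 2 * n := by omega
          rw [this, Nat.add_mod_right, Nat.mod_eq_of_lt (by omega)]
          omega
  have hinj1 : Set.InjOn (fun i => (c + i) % (2 * n)) S := by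
    intro a ha b hb hab
    have ha := hS a ha
    have hb := hS b hb
    have h1 : c + a ≡ c + b [MOD 2 * n] := hab
    have h2 : a ≡ b [MOD 2 * n] := Nat.ModEq.add_left_cancel' c h1
    have h3 : a % (2 * n) = b % (2 * n) := h2
    rwa [Nat.mod_eq_of_lt (by omega), Nat.mod_eq_of_lt (by omega)] at h3
  have hinj2 : Set.InjOn (fun i => (c + (2 * n - 1) * i) % (2 * n)) S := by
    intro a ha b hb hab
    have ha := hS a ha
    have hb := hS b hb
    have h1 : c + (2 * n - 1) * a ≡ c + (2 * n - 1) * b [MOD 2 * n] := hab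
    have h2 : (2 * n - 1) * a ≡ (2 * n - 1) * b [MOD 2 * n] := Nat.ModEq.add_left_cancel' c h1
    have hcop : Nat.gcd (2 * n) (2 * n - 1) = 1 := by
      obtain ⟨t, ht⟩ : ∃ t, 2 * n = t + 1 := ⟨2 * n - 1, by omega⟩
      rw [ht, Nat.add_sub_cancel]
      simp
    have h4 : a ≡ b [MOD 2 * n] := Nat.ModEq.cancel_left_of_coprime hcop h2
    have h3 : a % (2 * n) = b % (2 * n) := h4
    rwa [Nat.mod_eq_of_lt (by omega), Nat.mod_eq_of_lt (by omega)] at h3
  have hgen : ∀ y : ℝ, 0 ≤ y → ∑ i ∈ S, |(x i : ℝ)| * (y ^ ((c + i) % (2 * n)) + y ^ ((c + (2 * n - 1) * i) % (2 * n))) ≤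
      2 * B * ∑ m ∈ range (2 * n - l), y ^ m := by
    intro y hy
    have t1 := FC.sum_inj_le _ S (2 * n - l) hinj1 (fun i hi => (hrot i hi).2) y hy
    have t2 := FC.sum_inj_le _ S (2 * n - l) hinj2 (fun i hi => (hrot i hi).1) y hy
    calc ∑ i ∈ S, |(x i : ℝ)| * (y ^ ((c + i) % (2 * n)) + y ^ ((c + (2 * n - 1) * i) % (2 * n))) ≤
        ∑ i ∈ S, B * (y ^ ((c + i) % (2 * n)) + y ^ ((c + (2 * n - 1) * i) % (2 * n))) :=
          sum_le_sum fun i hi => mul_le_mul_of_nonneg_right (hx i hi) (by positivity)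
      _ = B * (∑ i ∈ S, y ^ ((c + i) % (2 * n)) + ∑ i ∈ S, y ^ ((c + (2 * n - 1) * i) % (2 * n))) := by
          rw [← mul_sum, sum_add_distrib]
      _ ≤ B * (∑ m ∈ range (2 * n - l), y ^ m + ∑ m ∈ range (2 * n - l), y ^ m) :=
          mul_le_mul_of_nonneg_left (add_le_add t1 t2) hB0
      _ = _ := by ring
  have b1 := (hgen (1 + √2) w_pos.le).trans
    (mul_le_mul_of_nonneg_left (geom_w (2 * n - l)) (mul_nonneg zero_le_two hB0))
  have b2 := (hgen |1 - √2| (abs_nonneg _)).trans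
    (mul_le_mul_of_nonneg_left (geom_w' (2 * n - l)) (mul_nonneg zero_le_two hB0))
  have h2 := h1.trans (mul_le_mul b1 b2 (sum_nonneg fun i _ => by positivity)
    (mul_nonneg (mul_nonneg zero_le_two hB0) (pow_pos w_pos _).le))
  have hMr := isPL_lower hn hM
  have hM2 : (1 + √2) ^ (2 * n) ≤ 9 * (M : ℝ) ^ 2 := by
    have e : (1 + √2) ^ (2 * n) = ((1 + √2) ^ n) ^ 2 := by rw [← pow_mul]; ring_nf
    rw [e]
    calc ((1 + √2) ^ n) ^ 2 ≤ (3 * (M : ℝ)) ^ 2 := pow_le_pow_left₀ (pow_pos w_pos _).le hMr 2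
      _ = _ := by ring
  have h3 : (1 + √2) ^ l * (2 * (Int.gcd M (∑ i ∈ S, x i * P i) : ℝ)) ^ 2 ≤ 8 * B ^ 2 * (1 + √2) ^ (2 * n) := by
    calc (1 + √2) ^ l * (2 * (Int.gcd M (∑ i ∈ S, x i * P i) : ℝ)) ^ 2 ≤
        (1 + √2) ^ l * (2 * B * (1 + √2) ^ (2 * n - l) * (2 * B * 2)) :=
          mul_le_mul_of_nonneg_left h2 (pow_pos w_pos _).le
      _ = 8 * B ^ 2 * ((1 + √2) ^ l * (1 + √2) ^ (2 * n - l)) := by ring
      _ = _ := by
          rw [← pow_add]
          congr 2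
          omega
  have h4 : 8 * B ^ 2 * (1 + √2) ^ (2 * n) ≤ 8 * B ^ 2 * (9 * (M : ℝ) ^ 2) :=
    mul_le_mul_of_nonneg_left hM2 (by positivity)
  nlinarith

/-- the number of terms -/
theorem partC {n : ℕ} {M : ℤ} (hn : 0 < n) (hM : IsPL n M) (S : Finset ℕ) (hS : ∀ i ∈ S, i ≤ n) (x : ℕ → ℤ)
    (B : ℝ) (hx : ∀ i ∈ S, |(x i : ℝ)| ≤ B) (hnd : ¬ M ∣ ∑ i ∈ S, x i * P i) :
    (1 + √2) ^ ((n + 1) / (S.card + 1)) * (Int.gcd M (∑ i ∈ S, x i * P i) : ℝ) ^ 2 ≤ 18 * B ^ 2 * (M : ℝ) ^ 2 := by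
  obtain ⟨l, hl⟩ : ∃ l, l = (n + 1) / (S.card + 1) := ⟨_, rfl⟩
  rw [← hl]
  have hll : (S.card + 1) * l ≤ n + 1 := by rw [hl]; exact Nat.mul_div_le _ _
  rcases Nat.eq_zero_or_pos l with h0 | h0
  · rw [h0]
    exact partB hn hM S hS x B hx 0 0 (by omega) (fun i _ => Or.inr (by omega)) hnd
  · obtain ⟨j, hj, hj2⟩ : ∃ j ∈ range (S.card + 1), j ∉ S.image (fun i => i / l) := by
      by_contra hcon
      push Not at hcon
      have h1 := card_le_card (show range (S.card + 1) ⊆ _ from hcon)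
      rw [card_range] at h1
      have h2 := card_image_le (s := S) (f := fun i => i / l)
      omega
    have hj1 := mem_range.1 hj
    refine partB hn hM S hS x B hx (j * l) l ?_ ?_ hnd
    · have : (j + 1) * l ≤ (S.card + 1) * l := Nat.mul_le_mul_right _ (by omega)
      have e : (j + 1) * l = j * l + l := by ring
      omega
    · intro i hi
      have hne : i / l ≠ j := fun h => hj2 (mem_image.2 ⟨i, hi, h⟩)
      rcases Nat.lt_or_gt_of_ne hne with h | h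
      · left
        rwa [Nat.div_lt_iff_lt_mul h0] at h
      · right
        have h' : j + 1 ≤ i / l := h
        rw [Nat.le_div_iff_mul_le h0] at h'
        have e : (j + 1) * l = j * l + l := by ring
        omega

lemma log_w_ge : 1 / 2 ≤ Real.log (1 + √2) := by
  have h1 : Real.log 2 ≤ Real.log (1 + √2) := Real.log_le_log (by norm_num) (by linarith [s2_gt])
  have := Real.log_two_gt_d9
  linarith

lemma log_w_le : Real.log (1 + √2) ≤ 2 * Real.log 2 := by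
  have : Real.log (1 + √2) ≤ Real.log (2 ^ 2) := Real.log_le_log w_pos (by linarith [s2_lt])
  rwa [Real.log_pow] at this

/-- `M / gcd ≥ 2` -/
lemma two_gcd_le {M N : ℤ} (hM : 0 < M) (hnd : ¬ M ∣ N) : 2 * (Int.gcd M N : ℤ) ≤ M := by
  obtain ⟨q, hq⟩ := Int.gcd_dvd_left M N
  have hg0 : (0 : ℤ) < Int.gcd M N := by
    rcases Nat.eq_zero_or_pos (Int.gcd M N) with h | h
    · rw [Int.gcd_eq_zero_iff] at h
      omega
    · exact_mod_cast h
  have hq1 : q ≠ 1 := by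
    intro h
    rw [h, mul_one] at hq
    apply hnd
    rw [hq]
    exact Int.gcd_dvd_right _ _
  have hq0 : 0 < q := by
    by_contra h
    push Not at h
    nlinarith
  have : 2 ≤ q := by omega
  calc 2 * (Int.gcd M N : ℤ) ≤ q * Int.gcd M N := Int.mul_le_mul_of_nonneg_right this hg0.le
    _ = M := by rw [mul_comm]; exact hq.symm

lemma gcd_pos {M N : ℤ} (hM : 0 < M) : 0 < Int.gcd M N := by
  rcases Nat.eq_zero_or_pos (Int.gcd M N) with h | h
  · rw [Int.gcd_eq_zero_iff] at h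
    omega
  · exact h

lemma isPL_pos {n : ℕ} (hn : 0 < n) {M : ℤ} (hM : IsPL n M) : 0 < M := by
  have h := isPL_lower hn hM
  have h2 : (0 : ℝ) < (1 + √2) ^ n := pow_pos w_pos _
  have : (0 : ℝ) < M := by linarith
  exact_mod_cast this

lemma one_le_B {S : Finset ℕ} {x : ℕ → ℤ} {B : ℝ} (hx : ∀ i ∈ S, |(x i : ℝ)| ≤ B) {i : ℕ} (hi : i ∈ S)
    (h : x i ≠ 0) : 1 ≤ B := by
  refine le_trans ?_ (hx i hi)
  have : 1 ≤ |x i| := Int.one_le_abs h
  exact_mod_cast this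

/-- **Few terms, indices in `[0, n]`.** -/
theorem partD {n : ℕ} {M : ℤ} (hn : 0 < n) (hM : IsPL n M) (S : Finset ℕ) (hS : ∀ i ∈ S, i ≤ n) (x : ℕ → ℤ)
    (B : ℝ) (hx : ∀ i ∈ S, |(x i : ℝ)| ≤ B) (hnd : ¬ M ∣ ∑ i ∈ S, x i * P i) :
    1 / 40 * (n : ℝ) ≤ S.card * Real.log (B * ((M : ℝ) / Int.gcd M (∑ i ∈ S, x i * P i))) := by
  have h1 := partC hn hM S hS x B hx hnd
  have hM0 := isPL_pos hn hM
  have hg := two_gcd_le hM0 hnd
  have hg0 := gcd_pos (N := ∑ i ∈ S, x i * P i) hM0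
  obtain ⟨i0, hi0, hxi0⟩ : ∃ i ∈ S, x i ≠ 0 := by
    by_contra hcon
    push Not at hcon
    apply hnd
    rw [sum_eq_zero (fun i hi => by rw [hcon i hi, zero_mul])]
    exact dvd_zero _
  have hB := one_le_B hx hi0 hxi0
  have hk1 : 1 ≤ S.card := card_pos.2 ⟨i0, hi0⟩
  obtain ⟨g, hgg⟩ : ∃ g, g = Int.gcd M (∑ i ∈ S, x i * P i) := ⟨_, rfl⟩
  rw [← hgg] at h1 hg hg0 ⊢
  obtain ⟨s, hs⟩ : ∃ s, s = S.card := ⟨_, rfl⟩
  rw [← hs] at h1 hk1 ⊢
  have hgr : (0 : ℝ) < g := by exact_mod_cast hg0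
  have hD : (2 : ℝ) ≤ (M : ℝ) / g := by
    rw [le_div_iff₀ hgr]; exact_mod_cast hg
  obtain ⟨T, hT⟩ : ∃ T, T = Real.log (B * ((M : ℝ) / g)) := ⟨_, rfl⟩
  have hBD : (2 : ℝ) ≤ B * ((M : ℝ) / g) := by nlinarith
  have hlog : Real.log 2 ≤ T := by rw [hT]; exact Real.log_le_log (by norm_num) hBD
  have hl2 := Real.log_two_gt_d9
  obtain ⟨t, ht⟩ : ∃ t, t = (n + 1) / (s + 1) := ⟨_, rfl⟩
  rw [← ht] at h1
  have h2 : (1 + √2) ^ t ≤ 18 * (B * ((M : ℝ) / g)) ^ 2 := by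
    have e : 18 * (B * ((M : ℝ) / g)) ^ 2 = (18 * B ^ 2 * (M : ℝ) ^ 2) / (g : ℝ) ^ 2 := by
      field_simp
    rw [e, le_div_iff₀ (by positivity)]
    exact h1
  have h3 : (t : ℝ) * Real.log (1 + √2) ≤ Real.log 18 + 2 * T := by
    have := Real.log_le_log (pow_pos w_pos _) h2
    rw [Real.log_pow, Real.log_mul (by norm_num) (by positivity), Real.log_pow, ← hT] at this
    exact_mod_cast this
  have h18 : Real.log 18 ≤ 5 * Real.log 2 := by
    have : Real.log 18 ≤ Real.log (2 ^ 5) := Real.log_le_log (by norm_num) (by norm_num)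
    rwa [Real.log_pow] at this
  have h4 : (n : ℝ) ≤ (t + 1) * (2 * s) := by
    have h5 : n + 1 < (s + 1) * (t + 1) := by
      have := Nat.lt_mul_div_succ (n + 1) (show 0 < s + 1 by omega)
      rwa [← ht] at this
    have h6 : (s + 1) * (t + 1) ≤ (2 * s) * (t + 1) := Nat.mul_le_mul_right _ (by omega)
    have h7 : n ≤ (t + 1) * (2 * s) := by
      rw [mul_comm (t + 1)]; omega
    exact_mod_cast h7
  rw [← hT]
  have h8 : (t + 1 : ℝ) * Real.log (1 + √2) ≤ 9 * T := by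
    have := log_w_le
    linarith
  have h9 : (t + 1 : ℝ) ≤ 18 * T := by
    have h10 := log_w_ge
    have h11 : (t + 1 : ℝ) * (1 / 2) ≤ (t + 1) * Real.log (1 + √2) :=
      mul_le_mul_of_nonneg_left h10 (by positivity)
    linarith
  have h12 : (n : ℝ) ≤ 18 * T * (2 * s) := h4.trans (mul_le_mul_of_nonneg_right h9 (by positivity))
  have h13 : 0 ≤ (s : ℝ) * T := mul_nonneg (by positivity) (by linarith)
  nlinarith

/-- **Few pairs, arbitrary indices.** -/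
theorem partE {n : ℕ} {M : ℤ} (hn : 0 < n) (hM : IsPL n M) (S : Finset ℕ) (x x' : ℕ → ℤ)
    (B : ℝ) (hx : ∀ i ∈ S, |(x i : ℝ)| ≤ B) (hx' : ∀ i ∈ S, |(x' i : ℝ)| ≤ B)
    (hnd : ¬ M ∣ ∑ i ∈ S, (x i * P i + x' i * P (i + 1))) :
    1 / 40 * (n : ℝ) ≤
      S.card * Real.log (n * B * ((M : ℝ) / Int.gcd M (∑ i ∈ S, (x i * P i + x' i * P (i + 1))))) := by
  have h1 := partA hn hM S x x' hnd
  have hM0 := isPL_pos hn hM
  have hg := two_gcd_le hM0 hnd
  have hg0 := gcd_pos (N := ∑ i ∈ S, (x i * P i + x' i * P (i + 1))) hM0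
  obtain ⟨i0, hi0, hxi0⟩ : ∃ i ∈ S, x i ≠ 0 ∨ x' i ≠ 0 := by
    by_contra hcon
    push Not at hcon
    apply hnd
    rw [sum_eq_zero (fun i hi => by rw [(hcon i hi).1, (hcon i hi).2, zero_mul, zero_mul, add_zero])]
    exact dvd_zero _
  have hB : 1 ≤ B := by
    rcases hxi0 with h | h
    · exact one_le_B hx hi0 h
    · exact one_le_B hx' hi0 h
  have hk1 : 1 ≤ S.card := card_pos.2 ⟨i0, hi0⟩
  have hW : ∑ i ∈ S, (|(x i : ℝ)| + 3 * |(x' i : ℝ)|) ≤ 4 * S.card * B := by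
    refine (sum_le_card_nsmul S _ (4 * B) (fun i hi => ?_)).trans (le_of_eq ?_)
    · have := hx i hi
      have := hx' i hi
      linarith
    · rw [nsmul_eq_mul]; ring
  obtain ⟨g, hgg⟩ : ∃ g, g = Int.gcd M (∑ i ∈ S, (x i * P i + x' i * P (i + 1))) := ⟨_, rfl⟩
  rw [← hgg] at h1 hg hg0 ⊢
  obtain ⟨s, hs⟩ : ∃ s, s = S.card := ⟨_, rfl⟩
  rw [← hs] at h1 hk1 hW ⊢
  have hgr : (0 : ℝ) < g := by exact_mod_cast hg0
  have hD : (2 : ℝ) ≤ (M : ℝ) / g := by
    rw [le_div_iff₀ hgr]; exact_mod_cast hg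
  have hnr : (1 : ℝ) ≤ n := by exact_mod_cast hn
  have hnB : (1 : ℝ) ≤ n * B := by nlinarith
  obtain ⟨T, hT⟩ : ∃ T, T = Real.log (n * B * ((M : ℝ) / g)) := ⟨_, rfl⟩
  have hBD : (2 : ℝ) ≤ n * B * ((M : ℝ) / g) := by nlinarith
  have hlog : Real.log 2 ≤ T := by rw [hT]; exact Real.log_le_log (by norm_num) hBD
  have hl2 := Real.log_two_gt_d9
  have hsr : (1 : ℝ) ≤ s := by exact_mod_cast hk1
  rw [← hT]
  rcases le_or_gt n s with hns | hns
  · have hnsr : (n : ℝ) ≤ s := by exact_mod_cast hns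
    nlinarith
  · have hsn : (s : ℝ) ≤ n := by exact_mod_cast hns.le
    have hMr := isPL_lower hn hM
    have hMpos : (0 : ℝ) < M := by exact_mod_cast hM0
    have h2 : (g : ℝ) ≤ 4 * s * B * (1 + √2) ^ ((n : ℝ) - n / (2 * s)) :=
      h1.trans (mul_le_mul_of_nonneg_right hW (rpow_nonneg w_pos.le _))
    have h3 : (1 + √2) ^ ((n : ℝ) / (2 * s)) * g ≤ 4 * s * B * (3 * M) := by
      calc (1 + √2) ^ ((n : ℝ) / (2 * s)) * g ≤
          (1 + √2) ^ ((n : ℝ) / (2 * s)) * (4 * s * B * (1 + √2) ^ ((n : ℝ) - n / (2 * s))) :=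
            mul_le_mul_of_nonneg_left h2 (rpow_nonneg w_pos.le _)
        _ = 4 * s * B * ((1 + √2) ^ ((n : ℝ) / (2 * s)) * (1 + √2) ^ ((n : ℝ) - n / (2 * s))) := by ring
        _ = 4 * s * B * (1 + √2) ^ n := by
            rw [← rpow_add w_pos, add_sub_cancel, rpow_natCast]
        _ ≤ 4 * s * B * (3 * M) := mul_le_mul_of_nonneg_left hMr (by positivity)
    have h4 : (1 + √2) ^ ((n : ℝ) / (2 * s)) ≤ 12 * (n * B * ((M : ℝ) / g)) := by
      have e : 12 * (n * B * ((M : ℝ) / g)) = (12 * (n * B * M)) / g := by ring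
      rw [e, le_div_iff₀ hgr]
      refine h3.trans ?_
      have : (s : ℝ) * B * M ≤ n * B * M :=
        mul_le_mul_of_nonneg_right (mul_le_mul_of_nonneg_right hsn (by linarith)) hMpos.le
      linarith
    have h5 : (n : ℝ) / (2 * s) * Real.log (1 + √2) ≤ Real.log 12 + T := by
      have := Real.log_le_log (rpow_pos_of_pos w_pos _) h4
      rw [Real.log_rpow w_pos, Real.log_mul (by norm_num) (by positivity), ← hT] at this
      exact this
    have h12 : Real.log 12 ≤ 4 * Real.log 2 := by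
      have : Real.log 12 ≤ Real.log (2 ^ 4) := Real.log_le_log (by norm_num) (by norm_num)
      rwa [Real.log_pow] at this
    have h6 : (n : ℝ) / (2 * s) * (1 / 2) ≤ 5 * T := by
      have h7 : (n : ℝ) / (2 * s) * (1 / 2) ≤ (n : ℝ) / (2 * s) * Real.log (1 + √2) :=
        mul_le_mul_of_nonneg_left log_w_ge (by positivity)
      linarith
    have h8 : (n : ℝ) ≤ 20 * (s * T) := by
      have e : (n : ℝ) = (n : ℝ) / (2 * s) * (1 / 2) * (4 * s) := by field_simp; ring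
      rw [e]
      have := mul_le_mul_of_nonneg_right h6 (by positivity : (0 : ℝ) ≤ 4 * s)
      linarith
    have h9 : 0 ≤ (s : ℝ) * T := mul_nonneg (by positivity) (by linarith)
    linarith

end Pool.Agent.Run7.h166.PC
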